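import Pool.Agent.W2helper31.GP.Stm2

/-!
# Project GP, piece NUMD
-/

set_option autoImplicit false

namespace Pool.Agent.W2helper59.GP

open Pool.Agent.W2helper31.GP

/-- the derivative is nonnegative -/
theorem numd_deriv_nonneg {x : ℝ} (h0 : 0 ≤ x) (h1 : x ≤ 1) :
    0 ≤ Real.log (1 + 8 * x) - 4 * x / (1 + 2 * x) - 4 * x / (9 + 6 * x) - x / 2 := by
  have p1 : (0 : ℝ) < 1 + 2 * x := by linarith
  have p2 : (0 : ℝ) < 9 + 6 * x := by linarith
  rcases le_total x (2 / 5) with h | h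
  · have b : 2 * (8 * x) / (8 * x + 2) ≤ Real.log (1 + 8 * x) :=
      Real.le_log_one_add_of_nonneg (by linarith)
    have p3 : (0 : ℝ) < 1 + 4 * x := by linarith
    have e : 2 * (8 * x) / (8 * x + 2) - 4 * x / (1 + 2 * x) - 4 * x / (9 + 6 * x) - x / 2 =
        x * (8 * 2 * (1 + 2 * x) * (9 + 6 * x) - 4 * 2 * (1 + 4 * x) * (9 + 6 * x)
          - 4 * 2 * (1 + 4 * x) * (1 + 2 * x) - (1 + 4 * x) * (1 + 2 * x) * (9 + 6 * x)) /
          (2 * (1 + 4 * x) * (1 + 2 * x) * (9 + 6 * x)) := by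
      have : (8 * x + 2) ≠ 0 := by linarith
      field_simp
      ring
    have e0 : 0 ≤ 2 * (8 * x) / (8 * x + 2) - 4 * x / (1 + 2 * x) - 4 * x / (9 + 6 * x) - x / 2 := by
      rw [e]
      apply div_nonneg _ (by positivity)
      apply mul_nonneg h0
      nlinarith [mul_nonneg h0 (sub_nonneg.mpr h), mul_nonneg (mul_nonneg h0 h0) (sub_nonneg.mpr h)]
    linarith
  · have hy : (0 : ℝ) ≤ (8 * x - 3) / 4 := by linarith
    have b : 2 * ((8 * x - 3) / 4) / ((8 * x - 3) / 4 + 2) ≤ Real.log (1 + (8 * x - 3) / 4) :=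
      Real.le_log_one_add_of_nonneg hy
    have e1 : Real.log (1 + 8 * x) = 2 * Real.log 2 + Real.log (1 + (8 * x - 3) / 4) := by
      rw [show (1 + 8 * x) = 2 ^ (2 : ℕ) * (1 + (8 * x - 3) / 4) by ring,
        Real.log_mul (by norm_num) (by linarith), Real.log_pow]
      norm_num
    have hl := Real.log_two_gt_d9
    have p3 : (0 : ℝ) < 5 + 8 * x := by linarith
    have e : (1386 / 1000 : ℝ) + 2 * ((8 * x - 3) / 4) / ((8 * x - 3) / 4 + 2) - 4 * x / (1 + 2 * x)
        - 4 * x / (9 + 6 * x) - x / 2 =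
        (1386 * 2 * (5 + 8 * x) * (1 + 2 * x) * (9 + 6 * x)
          + 1000 * 2 * 2 * (8 * x - 3) * (1 + 2 * x) * (9 + 6 * x)
          - 1000 * 2 * 4 * x * (5 + 8 * x) * (9 + 6 * x)
          - 1000 * 2 * 4 * x * (5 + 8 * x) * (1 + 2 * x)
          - 1000 * x * (5 + 8 * x) * (1 + 2 * x) * (9 + 6 * x)) /
          (1000 * 2 * (5 + 8 * x) * (1 + 2 * x) * (9 + 6 * x)) := by
      have q : 2 * ((8 * x - 3) / 4) / ((8 * x - 3) / 4 + 2) = 2 * (8 * x - 3) / (5 + 8 * x) := by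
        have : ((8 * x - 3) / 4 + 2) ≠ 0 := by
          have : (0 : ℝ) < (8 * x - 3) / 4 + 2 := by linarith
          exact this.ne'
        rw [div_eq_div_iff this p3.ne']
        ring
      rw [q, eq_div_iff (by positivity)]
      have i1 : (5 + 8 * x) * (5 + 8 * x)⁻¹ = 1 := mul_inv_cancel₀ p3.ne'
      have i2 : (1 + 2 * x) * (1 + 2 * x)⁻¹ = 1 := mul_inv_cancel₀ p1.ne'
      have i3 : (9 + 6 * x) * (9 + 6 * x)⁻¹ = 1 := mul_inv_cancel₀ p2.ne'
      simp only [div_eq_mul_inv]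
      linear_combination (1000 * 2 * (1 + 2 * x) * (9 + 6 * x) * (2 * (8 * x - 3))) * i1
        - (1000 * 2 * (5 + 8 * x) * (9 + 6 * x) * (4 * x)) * i2
        - (1000 * 2 * (5 + 8 * x) * (1 + 2 * x) * (4 * x)) * i3
    have e0 : 0 ≤ (1386 / 1000 : ℝ) + 2 * ((8 * x - 3) / 4) / ((8 * x - 3) / 4 + 2)
        - 4 * x / (1 + 2 * x) - 4 * x / (9 + 6 * x) - x / 2 := by
      rw [e]
      apply div_nonneg _ (by positivity)
      nlinarith [mul_nonneg (sub_nonneg.mpr h) (sub_nonneg.mpr h1),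
        mul_nonneg (mul_nonneg h0 (sub_nonneg.mpr h)) (sub_nonneg.mpr h1),
        mul_nonneg (mul_nonneg (mul_nonneg h0 h0) (sub_nonneg.mpr h)) (sub_nonneg.mpr h1)]
    linarith

theorem p_numd : P_NUMD := by
  intro nu h0 h1
  set T : ℝ → ℝ := fun x => (x + 1 / 8) * Real.log (1 + 8 * x) - x -
    ((2 * x - Real.log (1 + 2 * x)) + (2 * x / 3 - Real.log (1 + 2 * x / 3)) + x ^ 2 / 4) with hT
  have hd : ∀ x : ℝ, 0 ≤ x → HasDerivAt T
      (Real.log (1 + 8 * x) - 4 * x / (1 + 2 * x) - 4 * x / (9 + 6 * x) - x / 2) x := by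
    intro x hx
    have q1 : (1 + 8 * x) ≠ 0 := by linarith
    have q2 : (1 + 2 * x) ≠ 0 := by linarith
    have q3 : (1 + 2 * x / 3) ≠ 0 := by
      have : (0 : ℝ) < 1 + 2 * x / 3 := by linarith
      exact this.ne'
    have d1 : HasDerivAt (fun x : ℝ => 1 + 8 * x) 8 x := by
      simpa using ((hasDerivAt_id x).const_mul 8).const_add 1
    have d2 : HasDerivAt (fun x : ℝ => 1 + 2 * x) 2 x := by
      simpa using ((hasDerivAt_id x).const_mul 2).const_add 1
    have d3 : HasDerivAt (fun x : ℝ => 1 + 2 * x / 3) (2 / 3) x := by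
      simpa using (((hasDerivAt_id x).const_mul 2).div_const 3).const_add 1
    have d4 : HasDerivAt (fun x : ℝ => x + 1 / 8) 1 x := (hasDerivAt_id x).add_const _
    have d5 : HasDerivAt (fun x : ℝ => 2 * x) 2 x := by
      simpa using (hasDerivAt_id x).const_mul 2
    have d6 : HasDerivAt (fun x : ℝ => 2 * x / 3) (2 / 3) x := by
      simpa using ((hasDerivAt_id x).const_mul 2).div_const 3
    have d7 : HasDerivAt (fun x : ℝ => x ^ 2 / 4) (2 * x / 4) x := by
      simpa using (hasDerivAt_pow 2 x).div_const 4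
    have h := ((d4.mul (d1.log q1)).sub (hasDerivAt_id x)).sub
      (((d5.sub (d2.log q2)).add (d6.sub (d3.log q3))).add d7)
    have q4 : (9 + 6 * x) ≠ 0 := by linarith
    have q5 : (3 + 2 * x) ≠ 0 := by linarith
    refine h.congr_deriv ?_
    have r1 : (x + 1 / 8) * (8 / (1 + 8 * x)) = 1 := by
      field_simp
      ring
    have r2 : 2 - 2 / (1 + 2 * x) = 4 * x / (1 + 2 * x) := by
      rw [eq_div_iff q2, sub_mul, div_mul_cancel₀ _ q2]
      ring
    have r3 : 2 / 3 - 2 / 3 / (1 + 2 * x / 3) = 4 * x / (9 + 6 * x) := by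
      have i3 : (1 + 2 * x / 3) * (1 + 2 * x / 3)⁻¹ = 1 := mul_inv_cancel₀ q3
      rw [eq_div_iff q4, div_eq_mul_inv (2 / 3) (1 + 2 * x / 3)]
      linear_combination (-6) * i3
    rw [r1, r2, r3]
    ring
  have hmono : MonotoneOn T (Set.Icc 0 1) := by
    refine monotoneOn_of_deriv_nonneg (convex_Icc 0 1) ?_ ?_ ?_
    · intro x hx
      exact (hd x hx.1).continuousAt.continuousWithinAt
    · intro x hx
      rw [interior_Icc] at hx
      exact (hd x hx.1.le).differentiableAt.differentiableWithinAt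
    · intro x hx
      rw [interior_Icc] at hx
      rw [(hd x hx.1.le).deriv]
      exact numd_deriv_nonneg hx.1.le hx.2.le
  have h2 := hmono (Set.left_mem_Icc.mpr zero_le_one) ⟨h0, h1⟩ h0
  have h3 : T 0 = 0 := by simp [hT]
  rw [h3] at h2
  simp only [hT] at h2
  linarith

end Pool.Agent.W2helper59.GP
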