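import Pool.Agent.W2helper31.GP.Stm2

/-!
# Project GP, piece NUME
-/

set_option autoImplicit false

namespace Pool.Agent.W2helper59.GP

open Pool.Agent.W2helper31.GP

theorem em_bound : Real.eulerMascheroniConstant ≤ Real.log 2 - 2 / 65 := by
  have h1 := Real.eulerMascheroniConstant_lt_eulerMascheroniSeq' 8
  have h2 : Real.eulerMascheroniSeq' 8 = 761 / 280 - 3 * Real.log 2 := by
    unfold Real.eulerMascheroniSeq'
    rw [if_neg (by norm_num)]
    have h3 : ((harmonic 8 : ℚ) : ℝ) = 761 / 280 := by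
      have : (harmonic 8 : ℚ) = 761 / 280 := by
        simp only [harmonic, Finset.sum_range_succ, Finset.sum_range_zero]
        norm_num
      rw [this]
      norm_num
    rw [h3]
    have h4 : Real.log ((8 : ℕ) : ℝ) = 3 * Real.log 2 := by
      rw [show ((8 : ℕ) : ℝ) = 2 ^ (3 : ℕ) by norm_num, Real.log_pow]
      norm_num
    rw [h4]
  have h5 := Real.log_two_gt_d9
  rw [h2] at h1
  linarith

theorem p_nume : P_NUME := by
  intro nu h0
  have hs : (0 : ℝ) < 1 + 8 * nu := by linarith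
  have h9 : (0 : ℝ) < 9 + 8 * nu := by linarith
  have h4 : (0 : ℝ) < 4 + 8 * nu := by linarith
  -- first logarithm
  have e1 : Real.log (9 + 8 * nu) = Real.log (1 + 8 * nu) + Real.log (1 + 8 / (1 + 8 * nu)) := by
    rw [← Real.log_mul hs.ne' (by positivity)]
    congr 1
    field_simp
    ring
  have b1 : 2 * (8 / (1 + 8 * nu)) / (8 / (1 + 8 * nu) + 2) ≤ Real.log (1 + 8 / (1 + 8 * nu)) :=
    Real.le_log_one_add_of_nonneg (by positivity)
  have c1 : (nu + 1 / 8) * (2 * (8 / (1 + 8 * nu)) / (8 / (1 + 8 * nu) + 2)) =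
      1 - 4 / (5 + 8 * nu) := by
    have h5 : (5 + 8 * nu) ≠ 0 := by linarith
    have h6 : (8 / (1 + 8 * nu) + 2) ≠ 0 := by positivity
    field_simp
    ring
  -- second logarithm
  have e2 : Real.log (9 + 8 * nu) = Real.log (4 + 8 * nu) + Real.log (1 + 5 / (4 + 8 * nu)) := by
    rw [← Real.log_mul h4.ne' (by positivity)]
    congr 1
    field_simp
    ring
  have b2 : 2 * (5 / (4 + 8 * nu)) / (5 / (4 + 8 * nu) + 2) ≤ Real.log (1 + 5 / (4 + 8 * nu)) :=
    Real.le_log_one_add_of_nonneg (by positivity)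
  have c2 : 2 * (5 / (4 + 8 * nu)) / (5 / (4 + 8 * nu) + 2) = 10 / (13 + 16 * nu) := by
    have h5 : (13 + 16 * nu) ≠ 0 := by linarith
    have h6 : (5 / (4 + 8 * nu) + 2) ≠ 0 := by positivity
    field_simp
    ring
  have e3 : Real.log (4 + 8 * nu) = 3 * Real.log 2 + Real.log (nu + 1 / 2) := by
    rw [show (4 + 8 * nu) = 2 ^ (3 : ℕ) * (nu + 1 / 2) by ring,
      Real.log_mul (by norm_num) (by linarith), Real.log_pow]
    norm_num
  have b3 : -(2 / 65 : ℝ) ≤ -(4 / (5 + 8 * nu)) + 10 / (13 + 16 * nu) := by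
    have h5 : (0 : ℝ) < 5 + 8 * nu := by linarith
    have h6 : (0 : ℝ) < 13 + 16 * nu := by linarith
    have h7 : -(4 / (5 + 8 * nu)) + 10 / (13 + 16 * nu) =
        (16 * nu - 2) / ((5 + 8 * nu) * (13 + 16 * nu)) := by
      field_simp
      ring
    rw [h7, le_div_iff₀ (by positivity)]
    nlinarith
  have b1' : 1 - 4 / (5 + 8 * nu) ≤ (nu + 1 / 8) * Real.log (1 + 8 / (1 + 8 * nu)) := by
    rw [← c1]
    exact mul_le_mul_of_nonneg_left b1 (by linarith)
  have hem := em_bound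
  -- assembly: (nu + 9/8) log (9 + 8 nu) = (nu + 1/8) log (9 + 8 nu) + log (9 + 8 nu)
  have k1 : (nu + 9 / 8) * Real.log (9 + 8 * nu) =
      (nu + 1 / 8) * (Real.log (1 + 8 * nu) + Real.log (1 + 8 / (1 + 8 * nu))) +
        (3 * Real.log 2 + Real.log (nu + 1 / 2) + Real.log (1 + 5 / (4 + 8 * nu))) := by
    rw [← e1, ← e3, ← e2]
    ring
  rw [k1]
  rw [c2] at b2
  nlinarith [b1', b2, b3, hem]

end Pool.Agent.W2helper59.GP
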